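import Mathlib
import Pool.Agent.N753.DR.Stm
import Pool.Agent.Helper259.HtExt

/-!
# DR/VK: from the exceptional set over `K` to the points of the line over extensions `k`

Let `a ∈ k`, `F` its minimal polynomial over `K`, `x ∈ M = k(x)` of degree `r` over `K`, `M₀ = K(x)`.
The primes of `M₀` where `F(x)` is small which do not divide the discriminant of a generator of
`k / K` are unramified in `M = M₀ k`, so their sum is compared with the sum over the primes of `M`
above them, `[M : M₀]` times as large. There `F(x) = (x - a) H(x)`, and the height of `H(x)` is at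
most `(deg F - 1) h(x)` plus a constant.
-/

set_option autoImplicit false

namespace Pool.Agent.N415.DRVK

open NumberField IsDedekindDomain Module Polynomial Height
open Pool.Agent.N753.DR

section Ext
variable {k L : Type} [Field k] [NumberField k] [Field L] [NumberField L] [Algebra k L]

theorem ht_ext (x : k) : logHeight₁ (algebraMap k L x) = finrank k L * logHeight₁ x := by
  have h := Pool.Agent.Helper259.HtExt.logHeight_ext (L := L) ![x, 1]
  have h2 : (fun i => algebraMap k L (![x, 1] i)) = ![algebraMap k L x, 1] := by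
    funext i
    fin_cases i <;> simp
  rw [h2] at h
  rw [logHeight₁_eq_logHeight, h, ← logHeight₁_eq_logHeight]

theorem lN_over (v : HeightOneSpectrum (𝓞 k)) (w : HeightOneSpectrum (𝓞 L))
    (h : w.asIdeal.LiesOver v.asIdeal) :
    lN w = v.asIdeal.inertiaDeg' w.asIdeal * lN v := by
  unfold lN
  have := Ideal.absNorm_eq_pow_inertiaDeg'_of_liesOver w.asIdeal v.asIdeal v.isPrime v.ne_bot
  rw [this]
  push_cast
  rw [Real.log_pow]

/-- the sum over the primes above an unramified prime -/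
theorem sum_over (v : HeightOneSpectrum (𝓞 k))
    (hr : ∀ w : HeightOneSpectrum (𝓞 L), w.asIdeal.LiesOver v.asIdeal →
      v.asIdeal.ramificationIdx' w.asIdeal = 1) :
    ∃ W : Finset (HeightOneSpectrum (𝓞 L)), (∀ w, w ∈ W ↔ w.asIdeal.LiesOver v.asIdeal) ∧
      ∑ w ∈ W, lN w = finrank k L * lN v := by
  classical
  have hmax : v.asIdeal.IsMaximal := v.isMaximal
  have h1 := Ideal.sum_ramification_inertia (𝓞 L) k L (p := v.asIdeal) v.ne_bot
  have hmem : ∀ P, P ∈ IsDedekindDomain.primesOverFinset v.asIdeal (𝓞 L) ↔ P.IsPrime ∧ P.LiesOver v.asIdeal :=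
    fun P => IsDedekindDomain.mem_primesOverFinset_iff v.ne_bot _
  let f : {P // P ∈ IsDedekindDomain.primesOverFinset v.asIdeal (𝓞 L)} → HeightOneSpectrum (𝓞 L) := fun P =>
    ⟨P.1, ((hmem P.1).1 P.2).1, by
      have := ((hmem P.1).1 P.2).2
      exact Ideal.ne_bot_of_liesOver_of_ne_bot v.ne_bot P.1⟩
  refine ⟨(IsDedekindDomain.primesOverFinset v.asIdeal (𝓞 L)).attach.image f, fun w => ?_, ?_⟩
  · rw [Finset.mem_image]
    constructor
    · rintro ⟨P, -, rfl⟩
      exact ((hmem P.1).1 P.2).2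
    · intro h
      exact ⟨⟨w.asIdeal, (hmem _).2 ⟨w.isPrime, h⟩⟩, Finset.mem_attach _ _, rfl⟩
  · rw [Finset.sum_image]
    · rw [← h1]
      push_cast
      rw [Finset.sum_mul, ← Finset.sum_attach (IsDedekindDomain.primesOverFinset v.asIdeal (𝓞 L))
        (fun i => (v.asIdeal.ramificationIdx' i : ℝ) * (v.asIdeal.inertiaDeg' i : ℝ) * lN v)]
      refine Finset.sum_congr rfl fun P _ => ?_
      have hP := (hmem P.1).1 P.2
      have h2 := lN_over v (f P) hP.2
      have h3 : v.asIdeal.ramificationIdx' P.1 = 1 := hr (f P) hP.2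
      rw [h2, h3, Nat.cast_one, one_mul]
    · intro P _ Q _ h
      apply Subtype.ext
      exact congrArg HeightOneSpectrum.asIdeal h

end Ext

section One
variable {M : Type} [Field M] [NumberField M]

theorem lN_nonneg (w : HeightOneSpectrum (𝓞 M)) : 0 ≤ lN w := Real.log_natCast_nonneg _

theorem abv_le {z : M} (w : HeightOneSpectrum (𝓞 M)) (hw : w.valuation M z < 1) (hz : z ≠ 0) :
    (FinitePlace.mk w z : ℝ) ≤ ((Ideal.absNorm w.asIdeal : ℕ) : ℝ)⁻¹ := by
  have hN := NumberField.HeightOneSpectrum.one_lt_absNorm_nnreal w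
  have hx : w.valuation M z ≠ 0 := (Valuation.ne_zero_iff _).2 hz
  rw [FinitePlace.mk_apply, FinitePlace.norm_embedding', WithZeroMulInt.toNNReal_neg_apply _ hx]
  have h1 : (WithZero.unzero hx) < 1 := by
    rw [← WithZero.coe_lt_coe, WithZero.coe_unzero]
    exact hw
  have h2 : (WithZero.unzero hx).toAdd ≤ -1 := by
    have h3 : (WithZero.unzero hx).toAdd < 0 := h1
    omega
  push_cast
  have hN' : (1 : ℝ) < (Ideal.absNorm w.asIdeal : ℕ) := by exact_mod_cast hN
  calc ((Ideal.absNorm w.asIdeal : ℕ) : ℝ) ^ (WithZero.unzero hx).toAdd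
      ≤ ((Ideal.absNorm w.asIdeal : ℕ) : ℝ) ^ (-1 : ℤ) := zpow_le_zpow_right₀ hN'.le h2
    _ = _ := zpow_neg_one _

theorem log_abv {z : M} (w : HeightOneSpectrum (𝓞 M)) (hw : w.valuation M z < 1) (hz : z ≠ 0) :
    lN w ≤ Real.posLog (FinitePlace.mk w z⁻¹) := by
  have h1 := abv_le w hw hz
  have hN := NumberField.HeightOneSpectrum.one_lt_absNorm_nnreal w
  have hN' : (1 : ℝ) < (Ideal.absNorm w.asIdeal : ℕ) := by exact_mod_cast hN
  have hp : 0 < (FinitePlace.mk w z : ℝ) := FinitePlace.pos_iff.2 hz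
  have h2 : ((Ideal.absNorm w.asIdeal : ℕ) : ℝ) ≤ FinitePlace.mk w z⁻¹ := by
    have h3 : (FinitePlace.mk w z⁻¹ : ℝ) = (FinitePlace.mk w z : ℝ)⁻¹ := map_inv₀ _ _
    rw [h3]
    rwa [le_inv_comm₀ (by linarith) hp]
  calc lN w ≤ Real.log (FinitePlace.mk w z⁻¹) := Real.log_le_log (by linarith) h2
    _ ≤ _ := le_max_right _ _

theorem wt_le {z : M} (hz : z ≠ 0) (T : Finset (HeightOneSpectrum (𝓞 M)))
    (hT : ∀ w ∈ T, w.valuation M z < 1) : ∑ w ∈ T, lN w ≤ logHeight₁ z := by
  classical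
  rw [← logHeight₁_inv, NumberField.logHeight₁_eq]
  have h0 : 0 ≤ ∑ v : InfinitePlace M, v.mult * Real.posLog (v z⁻¹) :=
    Finset.sum_nonneg fun v _ => mul_nonneg (Nat.cast_nonneg _) Real.posLog_nonneg
  have hfin : (Function.support fun v : FinitePlace M => Real.posLog (v z⁻¹)).Finite := by
    refine (FinitePlace.hasFiniteMulSupport (inv_ne_zero hz)).subset fun v hv => ?_
    rw [Function.mem_support] at hv
    rw [Function.mem_mulSupport]
    intro h
    apply hv
    rw [h, Real.posLog_one]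
  have h1 : ∑ᶠ v : FinitePlace M, Real.posLog (v z⁻¹) =
      ∑ v ∈ hfin.toFinset ∪ T.image FinitePlace.mk, Real.posLog (v z⁻¹) := by
    refine finsum_eq_sum_of_support_subset _ fun v hv => ?_
    rw [Finset.coe_union]
    left
    rwa [Set.Finite.coe_toFinset]
  rw [h1]
  have h2 : ∑ v ∈ T.image FinitePlace.mk, Real.posLog (v z⁻¹) ≤
      ∑ v ∈ hfin.toFinset ∪ T.image FinitePlace.mk, Real.posLog (v z⁻¹) :=
    Finset.sum_le_sum_of_subset_of_nonneg Finset.subset_union_right
      fun v _ _ => Real.posLog_nonneg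
  rw [Finset.sum_image fun a _ b _ h => FinitePlace.mk_eq_iff.1 h] at h2
  have h3 : ∑ w ∈ T, lN w ≤ ∑ w ∈ T, Real.posLog (FinitePlace.mk w z⁻¹) :=
    Finset.sum_le_sum fun w hw => log_abv w (hT w hw) hz
  linarith

/-- finitely many zeros -/
theorem zeros_finite {z : M} (hz : z ≠ 0) :
    {w : HeightOneSpectrum (𝓞 M) | w.valuation M z < 1}.Finite := by
  have h := FinitePlace.hasFiniteMulSupport hz
  refine Set.Finite.subset (Set.Finite.preimage (f := FinitePlace.mk)
    (fun a _ b _ h => FinitePlace.mk_eq_iff.1 h) h) ?_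
  intro w hw
  rw [Set.mem_preimage, Function.mem_mulSupport]
  have h1 := abv_le w hw hz
  have hN := NumberField.HeightOneSpectrum.one_lt_absNorm_nnreal w
  have hN' : (1 : ℝ) < (Ideal.absNorm w.asIdeal : ℕ) := by exact_mod_cast hN
  have h2 : ((Ideal.absNorm w.asIdeal : ℕ) : ℝ)⁻¹ < 1 := inv_lt_one_of_one_lt₀ hN'
  intro h3
  rw [h3] at h1
  linarith

end One


/-! ### Heights of values of polynomials -/

section Hts

theorem ht_eval {k : Type} [Field k] [NumberField k] : ∀ (n : ℕ) (H : k[X]), H.natDegree ≤ n →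
    ∃ C : ℝ, 0 ≤ C ∧ ∀ (M : Type) [Field M] [NumberField M] [Algebra k M] (x : M),
      logHeight₁ (aeval x H) ≤ n * logHeight₁ x + finrank k M * C := by
  intro n
  induction n with
  | zero =>
    intro H hH
    refine ⟨logHeight₁ (H.coeff 0), zero_le_logHeight₁ _, ?_⟩
    intro M _ _ _ x
    rw [Polynomial.eq_C_of_natDegree_le_zero hH, aeval_C, ht_ext, coeff_C_zero]
    simp
  | succ n ih =>
    intro H hH
    obtain ⟨C, hC, h⟩ := ih H.divX (by rw [natDegree_divX_eq_natDegree_tsub_one]; omega)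
    have hk0 : (0 : ℝ) ≤ finrank ℚ k := Nat.cast_nonneg _
    have hl2 : 0 ≤ Real.log 2 := Real.log_nonneg (by norm_num)
    refine ⟨C + (finrank ℚ k * Real.log 2 + logHeight₁ (H.coeff 0)),
      add_nonneg hC (add_nonneg (mul_nonneg hk0 hl2) (zero_le_logHeight₁ _)), ?_⟩
    intro M _ _ _ x
    have h1 : aeval x H = aeval x H.divX * x + algebraMap k M (H.coeff 0) := by
      conv_lhs => rw [← divX_mul_X_add H]
      rw [map_add, map_mul, aeval_X, aeval_C]
    have h2 := logHeight₁_add_le (aeval x H.divX * x) (algebraMap k M (H.coeff 0))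
    have h3 := logHeight₁_mul_le (aeval x H.divX) x
    have h4 := h M x
    have h5 : (finrank ℚ M : ℝ) = (finrank ℚ k : ℝ) * (finrank k M : ℝ) := by
      exact_mod_cast (Module.finrank_mul_finrank ℚ k M).symm
    rw [NumberField.totalWeight_eq_finrank, h5, ht_ext] at h2
    rw [h1]
    push_cast
    linarith

/-- roots of a fixed irreducible polynomial -/
theorem conj_ht {K : Type} [Field K] [NumberField K] (F : K[X]) (hF : Irreducible F) :
    ∃ C : ℝ, 0 ≤ C ∧ ∀ (M : Type) [Field M] [NumberField M] [Algebra K M] (x : M),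
      aeval x F = 0 → logHeight₁ x ≤ finrank ℚ M * C := by
  have hfact : Fact (Irreducible F) := ⟨hF⟩
  have hfd : FiniteDimensional K (AdjoinRoot F) :=
    (AdjoinRoot.powerBasis hF.ne_zero).finite
  have hcz : CharZero (AdjoinRoot F) :=
    charZero_of_injective_algebraMap (algebraMap K (AdjoinRoot F)).injective
  have hfq : FiniteDimensional ℚ (AdjoinRoot F) := Module.Finite.trans K (AdjoinRoot F)
  have hN : NumberField (AdjoinRoot F) := @NumberField.mk _ _ hcz hfq
  refine ⟨logHeight₁ (AdjoinRoot.root F), zero_le_logHeight₁ _, ?_⟩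
  intro M _ _ _ x hx
  let φ : AdjoinRoot F →+* M := AdjoinRoot.lift (algebraMap K M) x hx
  let _ : Algebra (AdjoinRoot F) M := φ.toAlgebra
  have h1 : algebraMap (AdjoinRoot F) M (AdjoinRoot.root F) = x := AdjoinRoot.lift_root hx
  have h2 := ht_ext (L := M) (AdjoinRoot.root F)
  rw [h1] at h2
  rw [h2]
  have h3 : (finrank ℚ M : ℝ) = (finrank ℚ (AdjoinRoot F) : ℝ) * (finrank (AdjoinRoot F) M : ℝ) := by
    exact_mod_cast (Module.finrank_mul_finrank ℚ (AdjoinRoot F) M).symm
  have h4 : (1 : ℝ) ≤ (finrank ℚ (AdjoinRoot F) : ℝ) := by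
    exact_mod_cast Nat.succ_le_of_lt (Module.finrank_pos (R := ℚ) (M := AdjoinRoot F))
  have h5 : (0 : ℝ) ≤ (finrank (AdjoinRoot F) M : ℝ) := Nat.cast_nonneg _
  have h6 := zero_le_logHeight₁ (AdjoinRoot.root F)
  rw [h3]
  refine mul_le_mul_of_nonneg_right ?_ h6
  nlinarith

end Hts

/-! ### Ramification -/

section Ram

/-- the ramification is controlled by the derivative of the minimal polynomial -/
theorem unram_aux {M₀ M : Type} [Field M₀] [NumberField M₀] [Field M] [NumberField M]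
    [Algebra M₀ M] (z : 𝓞 M) (hz : Algebra.adjoin M₀ {(z : M)} = ⊤)
    (u : HeightOneSpectrum (𝓞 M₀)) (w : HeightOneSpectrum (𝓞 M))
    (huw : w.asIdeal.LiesOver u.asIdeal)
    (h : aeval z (derivative (minpoly (𝓞 M₀) z)) ∉ w.asIdeal) :
    u.asIdeal.ramificationIdx' w.asIdeal = 1 := by
  by_contra hne
  have hle : u.asIdeal.map (algebraMap (𝓞 M₀) (𝓞 M)) ≤ w.asIdeal :=
    Ideal.map_le_iff_le_comap.2 (le_of_eq huw.over)
  have h2 := (Ideal.ramificationIdx'_ne_one_iff hle).1 hne
  have hmax : u.asIdeal.IsMaximal := u.isMaximal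
  have h3 := pow_sub_one_dvd_differentIdeal (𝓞 M₀) (B := 𝓞 M) w.asIdeal 2 u.ne_bot
    (Ideal.dvd_iff_le.2 h2)
  rw [show 2 - 1 = 1 by norm_num, pow_one, Ideal.dvd_iff_le] at h3
  exact h (h3 (aeval_derivative_mem_differentIdeal (𝓞 M₀) M₀ M z hz))

theorem unram {K k M₀ M : Type} [Field K] [NumberField K] [Field k] [NumberField k]
    [Algebra K k] [Field M₀] [NumberField M₀] [Field M] [NumberField M] [Algebra K M₀]
    [Algebra K M] [Algebra M₀ M] [Algebra k M] [IsScalarTower K k M] [IsScalarTower K M₀ M]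
    (ζ : 𝓞 k) (hz : Algebra.adjoin M₀ {((algebraMap (𝓞 k) (𝓞 M) ζ : 𝓞 M) : M)} = ⊤)
    (u : HeightOneSpectrum (𝓞 M₀)) (w : HeightOneSpectrum (𝓞 M))
    (huw : w.asIdeal.LiesOver u.asIdeal)
    (h : algebraMap (𝓞 k) (𝓞 M) (aeval ζ (derivative (minpoly (𝓞 K) ζ))) ∉ w.asIdeal) :
    u.asIdeal.ramificationIdx' w.asIdeal = 1 := by
  refine unram_aux _ hz u w huw fun hmem => h ?_
  set z : 𝓞 M := algebraMap (𝓞 k) (𝓞 M) ζ with hzdef
  set G := (minpoly (𝓞 K) ζ).map (algebraMap (𝓞 K) (𝓞 M₀)) with hG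
  have e1 : ∀ P : (𝓞 K)[X], aeval z (P.map (algebraMap (𝓞 K) (𝓞 M₀))) =
      algebraMap (𝓞 k) (𝓞 M) (aeval ζ P) := by
    intro P
    rw [aeval_map_algebraMap, hzdef, aeval_algebraMap_apply]
  have e2 : aeval z G = 0 := by
    rw [hG, e1, minpoly.aeval, map_zero]
  obtain ⟨h', hh'⟩ := minpoly.isIntegrallyClosed_dvd (Algebra.IsIntegral.isIntegral (R := 𝓞 M₀) z) e2
  have e3 : aeval z (derivative G) = aeval z (derivative (minpoly (𝓞 M₀) z)) * aeval z h' := by
    rw [hh', derivative_mul, map_add, map_mul, map_mul, minpoly.aeval, zero_mul, add_zero]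
  rw [← e1, ← derivative_map, ← hG, e3]
  exact Ideal.mul_mem_right _ _ hmem

end Ram


/-! ### The primitive element -/

section Prim

/-- an integral primitive element -/
theorem exists_prim (K k : Type) [Field K] [NumberField K] [Field k] [NumberField k]
    [Algebra K k] : ∃ ζ : 𝓞 k, IntermediateField.adjoin K {(ζ : k)} = ⊤ := by
  have hfd : FiniteDimensional K k := Module.Finite.of_restrictScalars_finite ℚ K k
  obtain ⟨α, hα⟩ := Field.exists_primitive_element K k
  obtain ⟨y, hy, hint⟩ := IsAlgebraic.exists_integral_multiple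
    ((IsFractionRing.isAlgebraic_iff ℤ ℚ k).2 (Algebra.IsAlgebraic.isAlgebraic α))
  refine ⟨⟨y • α, hint⟩, ?_⟩
  rw [eq_top_iff, ← hα, IntermediateField.adjoin_simple_le_iff]
  have h1 : y • α ∈ IntermediateField.adjoin K {y • α} :=
    IntermediateField.mem_adjoin_simple_self K _
  have hyK : ((y : ℤ) : K) ≠ 0 := by exact_mod_cast hy
  have h2 : α = ((y : ℤ) : K)⁻¹ • (y • α) := by
    rw [Algebra.smul_def, map_inv₀, zsmul_eq_mul, map_intCast, inv_mul_cancel_left₀]
    exact_mod_cast hy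
  have h3 := IntermediateField.smul_mem (IntermediateField.adjoin K {y • α}) h1
    (x := ((y : ℤ) : K)⁻¹)
  rw [← h2] at h3
  exact h3

/-- `k(x) = K(x)(ζ)` -/
theorem adjoin_top {K k M : Type} [Field K] [NumberField K] [Field k] [NumberField k]
    [Algebra K k] [Field M] [NumberField M] [Algebra K M] [Algebra k M] [IsScalarTower K k M]
    (ζ : k) (hζ : IntermediateField.adjoin K {ζ} = ⊤) (x : M)
    (hx : IntermediateField.adjoin k {x} = ⊤) :
    Algebra.adjoin (IntermediateField.adjoin K {x}) {algebraMap k M ζ} = ⊤ := by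
  set M₀ := IntermediateField.adjoin K {x} with hM₀
  have hfd : FiniteDimensional M₀ M := Module.Finite.of_restrictScalars_finite ℚ M₀ M
  have halg : IsAlgebraic M₀ (algebraMap k M ζ) := Algebra.IsAlgebraic.isAlgebraic _
  rw [← IntermediateField.adjoin_simple_toSubalgebra_of_isAlgebraic halg]
  set N := IntermediateField.adjoin M₀ {algebraMap k M ζ} with hN
  have hζN : algebraMap k M ζ ∈ N := IntermediateField.mem_adjoin_simple_self M₀ _
  have hxN : x ∈ N := by
    have : algebraMap M₀ M ⟨x, IntermediateField.mem_adjoin_simple_self K x⟩ ∈ N :=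
      N.algebraMap_mem _
    exact this
  -- the image of `k`
  have hk : ∀ c : k, algebraMap k M c ∈ N := by
    intro c
    have h1 : c ∈ IntermediateField.adjoin K {ζ} := by rw [hζ]; exact IntermediateField.mem_top
    have h2 : IntermediateField.adjoin K {ζ} ≤
        (N.restrictScalars K).comap (IsScalarTower.toAlgHom K k M) := by
      rw [IntermediateField.adjoin_simple_le_iff]
      exact hζN
    exact h2 h1
  have h3 : (⊤ : IntermediateField k M) ≤ N.toSubfield.toIntermediateField hk := by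
    rw [← hx, IntermediateField.adjoin_simple_le_iff]
    exact hxN
  rw [eq_top_iff]
  intro y _
  exact h3 (IntermediateField.mem_top (x := y))

end Prim


/-! ### One point -/

section Main

theorem natCast_under {M₀ M : Type} [Field M₀] [NumberField M₀] [Field M] [NumberField M]
    [Algebra M₀ M] {u : HeightOneSpectrum (𝓞 M₀)} {w : HeightOneSpectrum (𝓞 M)}
    (huw : w.asIdeal.LiesOver u.asIdeal) {p : ℕ} (hp : (p : 𝓞 M) ∈ w.asIdeal) :
    (p : 𝓞 M₀) ∈ u.asIdeal := by
  rw [huw.over, Ideal.under_def, Ideal.mem_comap, map_natCast]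
  exact hp

theorem main_j {K k : Type} [Field K] [NumberField K] [Field k] [NumberField k] [Algebra K k]
    (r : ℕ) (E : Set K[X]) (S' : Finset ℕ) (ζ : 𝓞 k)
    (hζ : IntermediateField.adjoin K {(ζ : k)} = ⊤) (m : ℕ) (hm0 : m ≠ 0) (hmS : m ∈ S')
    (hmD : ∃ t : 𝓞 k, (m : 𝓞 k) = aeval ζ (derivative (minpoly (𝓞 K) ζ)) * t)
    (a : k) (κ' CK : ℝ)
    (hKE : ∀ (M : Type) [Field M] [NumberField M] [Algebra K M] (x : M),
      finrank K M = r → (minpoly K x).natDegree = r → minpoly K x ∉ E →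
      ∀ W : Finset (HeightOneSpectrum (𝓞 M)), (∀ w, Near S' (minpoly K a) x w → w ∈ W) →
        ((minpoly K a).natDegree - κ') * Height.logHeight₁ x ≤ ∑ w ∈ W, lN w + CK) :
    ∃ C : ℝ, 0 ≤ C ∧ ∀ (M : Type) [Field M] [NumberField M] [Algebra K M] [Algebra k M]
      [IsScalarTower K k M] (x : M), IntermediateField.adjoin k {x} = ⊤ →
      (minpoly K x).natDegree = r → minpoly K x ∉ E → aeval x (minpoly K a) ≠ 0 →
      ∃ T : Finset (HeightOneSpectrum (𝓞 M)),
        (∀ w ∈ T, (∀ p ∈ S', p ≠ 0 → (p : 𝓞 M) ∉ w.asIdeal) ∧ w.valuation M x ≤ 1 ∧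
          w.valuation M (x - algebraMap k M a) < 1) ∧
        (1 - κ') * logHeight₁ x ≤ ∑ w ∈ T, lN w + C := by
  classical
  set F := minpoly K a with hF
  have hfd : FiniteDimensional K k := Module.Finite.of_restrictScalars_finite ℚ K k
  have hFm : F.Monic := minpoly.monic (Algebra.IsIntegral.isIntegral a)
  have hd : 1 ≤ F.natDegree := minpoly.natDegree_pos (Algebra.IsIntegral.isIntegral a)
  -- the factor
  obtain ⟨H, hH⟩ : (X - C a) ∣ F.map (algebraMap K k) := by
    rw [dvd_iff_isRoot, IsRoot, eval_map_algebraMap, hF, minpoly.aeval]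
  have hHd : H.natDegree ≤ F.natDegree - 1 := by
    have h1 : (F.map (algebraMap K k)).natDegree = F.natDegree := natDegree_map _
    have hH0 : H ≠ 0 := by
      rintro rfl
      rw [mul_zero] at hH
      exact (hFm.map _).ne_zero hH
    rw [hH, natDegree_mul (X_sub_C_ne_zero a) hH0, natDegree_X_sub_C] at h1
    omega
  obtain ⟨CH, hCH0, hCH⟩ := ht_eval (F.natDegree - 1) H hHd
  refine ⟨finrank ℚ k * r * |CK| + r * CH, by positivity, ?_⟩
  intro M _ _ _ _ _ x hx hxr hxE hxF
  have hfdM : FiniteDimensional K M := Module.Finite.of_restrictScalars_finite ℚ K M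
  have hfdkM : FiniteDimensional k M := Module.Finite.of_restrictScalars_finite ℚ k M
  have hxint : IsIntegral K x := Algebra.IsIntegral.isIntegral x
  -- degrees
  have hkM : finrank k M ≤ r := by
    rw [← hxr]
    have h1 : finrank k M = (minpoly k x).natDegree := by
      rw [← IntermediateField.adjoin.finrank (K := k) (Algebra.IsIntegral.isIntegral x), hx,
        IntermediateField.finrank_top']
    rw [h1]
    have h2 : minpoly k x ∣ (minpoly K x).map (algebraMap K k) :=
      minpoly.dvd_map_of_isScalarTower K k x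
    have h3 := natDegree_le_of_dvd h2 ((minpoly.monic hxint).map _).ne_zero
    rwa [natDegree_map] at h3
  set M₀ := IntermediateField.adjoin K {x} with hM₀
  set x0 : M₀ := ⟨x, IntermediateField.mem_adjoin_simple_self K x⟩ with hx0def
  have hx0 : algebraMap M₀ M x0 = x := rfl
  have e1 : finrank K M₀ = r := by rw [IntermediateField.adjoin.finrank hxint, hxr]
  have e2 : minpoly K x0 = minpoly K x := by
    rw [← hx0, minpoly.algebraMap_eq (algebraMap M₀ M).injective]
  have hF0 : aeval x0 F ≠ 0 := by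
    intro h
    apply hxF
    rw [← hx0, aeval_algebraMap_apply, h, map_zero]
  set W₀ : Finset (HeightOneSpectrum (𝓞 M₀)) :=
    ((zeros_finite hF0).toFinset).filter (fun u => Near S' F x0 u) with hW₀def
  have hW₀ : ∀ u, u ∈ W₀ ↔ Near S' F x0 u := by
    intro u
    rw [hW₀def, Finset.mem_filter, Set.Finite.mem_toFinset]
    exact ⟨fun h => h.2, fun h => ⟨h.2.2, h⟩⟩
  have k1 := hKE M₀ x0 e1 (by rw [e2, hxr]) (by rw [e2]; exact hxE) W₀ (fun w hw => (hW₀ w).2 hw)
  -- unramified
  have hadj := adjoin_top (ζ : k) hζ x hx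
  have hun : ∀ u ∈ W₀, ∀ w : HeightOneSpectrum (𝓞 M), w.asIdeal.LiesOver u.asIdeal →
      u.asIdeal.ramificationIdx' w.asIdeal = 1 := by
    intro u hu w hwu
    refine unram (K := K) (k := k) ζ hadj u w hwu fun hmem => ?_
    refine ((hW₀ u).1 hu).1 m hmS hm0 (natCast_under hwu ?_)
    obtain ⟨t, ht⟩ := hmD
    have h3 : (m : 𝓞 M) = algebraMap (𝓞 k) (𝓞 M)
        (aeval ζ (derivative (minpoly (𝓞 K) ζ))) * algebraMap (𝓞 k) (𝓞 M) t := by
      rw [← map_mul, ← ht, map_natCast]
    rw [h3]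
    exact Ideal.mul_mem_right _ _ hmem
  choose! Wf hWf hWs using fun u (hu : u ∈ W₀) => sum_over (L := M) u (hun u hu)
  set W₁ := W₀.biUnion Wf with hW₁def
  have hsum1 : ∑ w ∈ W₁, lN w = finrank M₀ M * ∑ u ∈ W₀, lN u := by
    rw [hW₁def, Finset.sum_biUnion, Finset.mul_sum]
    · exact Finset.sum_congr rfl fun u hu => hWs u hu
    · intro u hu u' hu' hne
      rw [Function.onFun, Finset.disjoint_left]
      intro w hw hw'
      apply hne
      apply HeightOneSpectrum.ext
      rw [((hWf u hu w).1 hw).over, ((hWf u' hu' w).1 hw').over]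
  have hW₁ : ∀ w ∈ W₁, (∀ p ∈ S', p ≠ 0 → (p : 𝓞 M) ∉ w.asIdeal) ∧ w.valuation M x ≤ 1 ∧
      w.valuation M (aeval x F) < 1 := by
    intro w hw
    obtain ⟨u, hu, hwu⟩ := Finset.mem_biUnion.1 hw
    have hlo := (hWf u hu w).1 hwu
    obtain ⟨n1, n2, n3⟩ := (hW₀ u).1 hu
    have hval : ∀ z : M₀, w.valuation M (algebraMap M₀ M z) = u.valuation M₀ z := by
      intro z
      rw [← HeightOneSpectrum.valuation_liesOver M u w, hun u hu w hlo, pow_one]
    refine ⟨fun p hp hp0 hmem => n1 p hp hp0 (natCast_under hlo hmem), ?_, ?_⟩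
    · rw [← hx0, hval]; exact n2
    · rw [← hx0, aeval_algebraMap_apply, hval]; exact n3
  -- split
  have hfac : aeval x F = (x - algebraMap k M a) * aeval x H := by
    have h1 : aeval x F = aeval x (F.map (algebraMap K k)) := (aeval_map_algebraMap k x F).symm
    rw [h1, hH, map_mul, map_sub, aeval_X, aeval_C]
  have hHx : aeval x H ≠ 0 := by
    intro h
    apply hxF
    rw [hfac, h, mul_zero]
  set T := W₁.filter fun w => w.valuation M (x - algebraMap k M a) < 1 with hT
  set T' := W₁.filter fun w => w.valuation M (aeval x H) < 1 with hT'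
  have hsplit : ∑ w ∈ W₁, lN w ≤ ∑ w ∈ T, lN w + ∑ w ∈ T', lN w := by
    have hsub : W₁ ⊆ T ∪ T' := by
      intro w hw
      rw [Finset.mem_union, hT, hT', Finset.mem_filter, Finset.mem_filter]
      by_contra hcon
      push Not at hcon
      have h1 := hcon.1 hw
      have h2 := hcon.2 hw
      have h3 := (hW₁ w hw).2.2
      rw [hfac, map_mul] at h3
      exact absurd (one_le_mul h1 h2) (not_le.2 h3)
    have h4 : ∑ w ∈ W₁, lN w ≤ ∑ w ∈ T ∪ T', lN w :=
      Finset.sum_le_sum_of_subset_of_nonneg hsub fun w _ _ => lN_nonneg w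
    have h5 := Finset.sum_union_inter (s₁ := T) (s₂ := T') (f := fun w => lN w)
    have h6 : 0 ≤ ∑ w ∈ T ∩ T', lN w := Finset.sum_nonneg fun w _ => lN_nonneg w
    linarith
  have hT'b := (wt_le hHx T' fun w hw => (Finset.mem_filter.1 hw).2).trans (hCH M x)
  refine ⟨T, fun w hw => ?_, ?_⟩
  · rw [hT, Finset.mem_filter] at hw
    exact ⟨(hW₁ w hw.1).1, (hW₁ w hw.1).2.1, hw.2⟩
  · have hht : logHeight₁ x = finrank M₀ M * logHeight₁ x0 := by
      rw [← ht_ext (L := M) x0, hx0]
    have hn1 : (0 : ℝ) ≤ (finrank M₀ M : ℝ) := Nat.cast_nonneg _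
    have k2 := mul_le_mul_of_nonneg_left k1 hn1
    have hdc : ((F.natDegree - 1 : ℕ) : ℝ) = (F.natDegree : ℝ) - 1 := by
      rw [Nat.cast_sub hd, Nat.cast_one]
    rw [hdc] at hT'b
    -- degrees
    have d1 : (finrank ℚ M : ℝ) = (finrank ℚ k : ℝ) * (finrank k M : ℝ) := by
      exact_mod_cast (Module.finrank_mul_finrank ℚ k M).symm
    have d2 : (finrank ℚ M : ℝ) = (finrank ℚ M₀ : ℝ) * (finrank M₀ M : ℝ) := by
      exact_mod_cast (Module.finrank_mul_finrank ℚ M₀ M).symm
    have d3 : (1 : ℝ) ≤ (finrank ℚ M₀ : ℝ) := by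
      exact_mod_cast Nat.succ_le_of_lt (Module.finrank_pos (R := ℚ) (M := M₀))
    have d4 : (finrank k M : ℝ) ≤ r := by exact_mod_cast hkM
    have d5 : (finrank M₀ M : ℝ) ≤ finrank ℚ k * r := by
      calc (finrank M₀ M : ℝ) ≤ (finrank ℚ M₀ : ℝ) * (finrank M₀ M : ℝ) := by nlinarith
        _ = (finrank ℚ k : ℝ) * (finrank k M : ℝ) := by rw [← d2, d1]
        _ ≤ _ := mul_le_mul_of_nonneg_left d4 (Nat.cast_nonneg _)
    have d6 : (finrank M₀ M : ℝ) * CK ≤ finrank ℚ k * r * |CK| :=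
      (mul_le_mul_of_nonneg_left (le_abs_self CK) hn1).trans
        (mul_le_mul_of_nonneg_right d5 (abs_nonneg CK))
    have d7 : (finrank k M : ℝ) * CH ≤ r * CH := mul_le_mul_of_nonneg_right d4 hCH0
    have k3 : (F.natDegree - κ') * logHeight₁ x ≤ ∑ w ∈ W₁, lN w + finrank M₀ M * CK := by
      rw [hht, hsum1]
      linarith
    linarith

/-- separation of two points -/
theorem sep {k : Type} [Field k] [NumberField k] {z : k} (hz : z ≠ 0) : ∃ n : ℕ, n ≠ 0 ∧
    ∀ (M : Type) [Field M] [NumberField M] [Algebra k M] (w : HeightOneSpectrum (𝓞 M)),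
      (n : 𝓞 M) ∉ w.asIdeal → ¬ w.valuation M (algebraMap k M z) < 1 := by
  obtain ⟨y, hy, hint⟩ := IsAlgebraic.exists_integral_multiple
    ((IsFractionRing.isAlgebraic_iff ℤ ℚ k).2 (Algebra.IsAlgebraic.isAlgebraic z⁻¹))
  refine ⟨y.natAbs, Int.natAbs_ne_zero.2 hy, ?_⟩
  intro M _ _ _ w hw hlt
  apply hw
  have h1 : ((y : ℤ) : M) = algebraMap k M (y • z⁻¹) * algebraMap k M z := by
    rw [← map_mul, zsmul_eq_mul, mul_assoc, inv_mul_cancel₀ hz, mul_one, map_intCast]
  have hint' : IsIntegral ℤ (algebraMap k M (y • z⁻¹)) := hint.map (algebraMap k M).toIntAlgHom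
  have h2 : w.valuation M (algebraMap k M (y • z⁻¹)) ≤ 1 := by
    have := w.valuation_le_one (K := M) (⟨_, hint'⟩ : 𝓞 M)
    exact this
  have h3 : w.valuation M ((y : ℤ) : M) < 1 := by
    rw [h1, map_mul]
    have h7 : w.valuation M (algebraMap k M (y • z⁻¹)) * w.valuation M (algebraMap k M z) ≤
        1 * w.valuation M (algebraMap k M z) := mul_le_mul' h2 le_rfl
    rw [one_mul] at h7
    exact lt_of_le_of_lt h7 hlt
  have h4 : (y : 𝓞 M) ∈ w.asIdeal := by
    rw [← HeightOneSpectrum.valuation_lt_one_iff_mem (K := M)]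
    simpa using h3
  rcases Int.natAbs_eq y with h5 | h5
  · have h6 : ((y.natAbs : ℕ) : 𝓞 M) = (y : 𝓞 M) := by
      conv_rhs => rw [h5]
      simp
    rw [h6]; exact h4
  · have h6 : ((y.natAbs : ℕ) : 𝓞 M) = -(y : 𝓞 M) := by
      conv_rhs => rw [h5]
      simp
    rw [h6]; exact w.asIdeal.neg_mem h4

/-- a natural number divisible by a nonzero integer -/
theorem exists_mult {k : Type} [Field k] [NumberField k] {D : 𝓞 k} (hD : D ≠ 0) :
    ∃ m : ℕ, m ≠ 0 ∧ ∃ t : 𝓞 k, (m : 𝓞 k) = D * t := by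
  refine ⟨Ideal.absNorm (Ideal.span {D}), ?_, ?_⟩
  · intro h
    rw [Ideal.absNorm_eq_zero_iff, Ideal.span_singleton_eq_bot] at h
    exact hD h
  · have h := Ideal.absNorm_mem (Ideal.span {D})
    rw [Ideal.mem_span_singleton] at h
    exact h

theorem disc_ne {K k : Type} [Field K] [NumberField K] [Field k] [NumberField k] [Algebra K k]
    (ζ : 𝓞 k) : aeval ζ (derivative (minpoly (𝓞 K) ζ)) ≠ 0 := by
  have hfd : FiniteDimensional K k := Module.Finite.of_restrictScalars_finite ℚ K k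
  intro h
  have h1 : aeval (ζ : k) (derivative (minpoly K (ζ : k))) = 0 := by
    have h2 : minpoly K (algebraMap (𝓞 k) k ζ) = (minpoly (𝓞 K) ζ).map (algebraMap (𝓞 K) K) :=
      minpoly.isIntegrallyClosed_eq_field_fractions K k (Algebra.IsIntegral.isIntegral ζ)
    have h3 : (ζ : k) = algebraMap (𝓞 k) k ζ := rfl
    rw [h3, h2, derivative_map, aeval_map_algebraMap, aeval_algebraMap_apply, h, map_zero]
  have hsep : (minpoly K (ζ : k)).Separable := Algebra.IsSeparable.isSeparable K (ζ : k)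
  exact hsep.aeval_derivative_ne_zero (minpoly.aeval K (ζ : k)) h1

theorem t (h : StmKE) : StmVk := by
  classical
  intro K _ _ r hr
  obtain ⟨E, hE1, hE2⟩ := h K r hr
  refine ⟨E, hE1, ?_⟩
  intro k _ _ _ q a ha hdeg S κ hκ
  rcases Nat.eq_zero_or_pos q with rfl | hq
  · refine ⟨0, ?_⟩
    intro M _ _ _ _ _ x _ _ _ _ W _
    have h1 := zero_le_logHeight₁ x
    have h2 : 0 ≤ ∑ w ∈ W, lN w := Finset.sum_nonneg fun w _ => lN_nonneg w
    have h3 : 0 ≤ κ * logHeight₁ x := mul_nonneg hκ.le h1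
    rw [Nat.cast_zero, zero_sub, neg_mul]
    linarith
  have hq' : (0 : ℝ) < q := by exact_mod_cast hq
  set κ' := κ / q with hκ'
  have hκ'0 : 0 < κ' := div_pos hκ hq'
  have hqκ : (q : ℝ) * κ' = κ := by rw [hκ']; field_simp
  obtain ⟨ζ, hζ⟩ := exists_prim K k
  obtain ⟨m, hm0, hmD⟩ := exists_mult (disc_ne (K := K) ζ)
  have hsep : ∀ i j : Fin q, ∃ n : ℕ, n ≠ 0 ∧ (i ≠ j →
      ∀ (M : Type) [Field M] [NumberField M] [Algebra k M] (w : HeightOneSpectrum (𝓞 M)),
        (n : 𝓞 M) ∉ w.asIdeal → ¬ w.valuation M (algebraMap k M (a i - a j)) < 1) := by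
    intro i j
    by_cases hij : i = j
    · exact ⟨1, one_ne_zero, fun h => absurd hij h⟩
    · obtain ⟨n, hn, hn'⟩ := sep (sub_ne_zero.2 fun h => hij (ha h))
      exact ⟨n, hn, fun _ => hn'⟩
  choose n hn0 hn using hsep
  set S' : Finset ℕ := insert m (S ∪ Finset.univ.image fun p : Fin q × Fin q => n p.1 p.2)
    with hS'
  have hSS' : S ⊆ S' := fun p hp => Finset.mem_insert_of_mem (Finset.mem_union_left _ hp)
  have hnS' : ∀ i j, n i j ∈ S' := fun i j => Finset.mem_insert_of_mem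
    (Finset.mem_union_right _ (Finset.mem_image.2 ⟨(i, j), Finset.mem_univ _, rfl⟩))
  have hFm : ∀ j, (minpoly K (a j)).Monic := fun j =>
    minpoly.monic (Algebra.IsIntegral.isIntegral _)
  have hFi : ∀ j, Irreducible (minpoly K (a j)) := fun j =>
    minpoly.irreducible (Algebra.IsIntegral.isIntegral _)
  choose CK hCK using fun j => hE2 S' (minpoly K (a j)) (hFm j) (hFi j) (hdeg j) κ' hκ'0
  choose Cm hCm0 hCm using fun j => main_j r E S' ζ hζ m hm0 (Finset.mem_insert_self _ _) hmD (a j)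
    κ' (CK j) (hCK j)
  choose Cc hCc0 hCc using fun j => conj_ht (minpoly K (a j)) (hFi j)
  have hsC : 0 ≤ ∑ j, Cm j := Finset.sum_nonneg fun j _ => hCm0 j
  have hcC : ∀ j, 0 ≤ (finrank ℚ k * r : ℝ) * Cc j := fun j =>
    mul_nonneg (mul_nonneg (Nat.cast_nonneg _) (Nat.cast_nonneg _)) (hCc0 j)
  refine ⟨∑ j, Cm j + q * ∑ j, (finrank ℚ k * r : ℝ) * Cc j, ?_⟩
  intro M _ _ _ _ _ x hx hxr hxE hxa W hW
  have hW0 : 0 ≤ ∑ w ∈ W, lN w := Finset.sum_nonneg fun w _ => lN_nonneg w
  have hh0 := zero_le_logHeight₁ x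
  by_cases hz : ∃ j, aeval x (minpoly K (a j)) = 0
  · obtain ⟨j, hj⟩ := hz
    have h1 := hCc j M x hj
    have hkM : finrank k M ≤ r := by
      rw [← hxr]
      have h1 : finrank k M = (minpoly k x).natDegree := by
        rw [← IntermediateField.adjoin.finrank (K := k) (Algebra.IsIntegral.isIntegral x), hx,
          IntermediateField.finrank_top']
      rw [h1]
      have h2 : minpoly k x ∣ (minpoly K x).map (algebraMap K k) :=
        minpoly.dvd_map_of_isScalarTower K k x
      have h3 := natDegree_le_of_dvd h2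
        ((minpoly.monic (Algebra.IsIntegral.isIntegral x)).map _).ne_zero
      rwa [natDegree_map] at h3
    have d1 : (finrank ℚ M : ℝ) = (finrank ℚ k : ℝ) * (finrank k M : ℝ) := by
      exact_mod_cast (Module.finrank_mul_finrank ℚ k M).symm
    have d4 : (finrank k M : ℝ) ≤ r := by exact_mod_cast hkM
    have d5 : (finrank ℚ M : ℝ) * Cc j ≤ (finrank ℚ k * r : ℝ) * Cc j := by
      refine mul_le_mul_of_nonneg_right ?_ (hCc0 j)
      rw [d1]
      exact mul_le_mul_of_nonneg_left d4 (Nat.cast_nonneg _)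
    have d6 : (finrank ℚ k * r : ℝ) * Cc j ≤ ∑ j, (finrank ℚ k * r : ℝ) * Cc j :=
      Finset.single_le_sum (f := fun j => (finrank ℚ k * r : ℝ) * Cc j)
        (fun j _ => hcC j) (Finset.mem_univ j)
    have d7 : (q : ℝ) * logHeight₁ x ≤ q * ∑ j, (finrank ℚ k * r : ℝ) * Cc j :=
      mul_le_mul_of_nonneg_left (h1.trans (d5.trans d6)) hq'.le
    have d8 : 0 ≤ κ * logHeight₁ x := mul_nonneg hκ.le hh0
    rw [sub_mul]
    linarith
  · push Not at hz
    choose T hT1 hT2 using fun j => hCm j M x hx hxr hxE (hz j)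
    have hdisj : Set.PairwiseDisjoint (↑(Finset.univ : Finset (Fin q))) T := by
      intro i _ j _ hij
      rw [Function.onFun, Finset.disjoint_left]
      intro w hwi hwj
      refine hn j i (fun h => hij h.symm) M w ((hT1 i w hwi).1 _ (hnS' j i) (hn0 j i)) ?_
      have h1 : algebraMap k M (a j - a i) =
          (x - algebraMap k M (a i)) - (x - algebraMap k M (a j)) := by
        rw [map_sub]; ring
      rw [h1]
      exact lt_of_le_of_lt (Valuation.map_sub _ _ _)
        (max_lt (hT1 i w hwi).2.2 (hT1 j w hwj).2.2)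
    have hsub : Finset.univ.biUnion T ⊆ W := by
      intro w hw
      obtain ⟨j, _, hj⟩ := Finset.mem_biUnion.1 hw
      exact hW w (fun p hp hp0 => (hT1 j w hj).1 p (hSS' hp) hp0) (hT1 j w hj).2.1 ⟨j, (hT1 j w hj).2.2⟩
    have h1 : ∑ j, ∑ w ∈ T j, lN w ≤ ∑ w ∈ W, lN w := by
      rw [← Finset.sum_biUnion hdisj]
      exact Finset.sum_le_sum_of_subset_of_nonneg hsub fun w _ _ => lN_nonneg w
    have h2 : ∑ _j : Fin q, (1 - κ') * logHeight₁ x ≤ ∑ j, (∑ w ∈ T j, lN w + Cm j) :=
      Finset.sum_le_sum fun j _ => hT2 j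
    rw [Finset.sum_const, Finset.card_univ, Fintype.card_fin, nsmul_eq_mul,
      Finset.sum_add_distrib] at h2
    have h3 : (q : ℝ) * ((1 - κ') * logHeight₁ x) = (q - κ) * logHeight₁ x := by
      rw [← hqκ]; ring
    have h4 : 0 ≤ (q : ℝ) * ∑ j, (finrank ℚ k * r : ℝ) * Cc j :=
      mul_nonneg hq'.le (Finset.sum_nonneg fun j _ => hcC j)
    linarith

end Main

end Pool.Agent.N415.DRVK
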